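import Pool.Agent.X25.SIC.Main

/-!
# MP_1c78a5_mp: Weyl-Heisenberg covariant SICs up to a constant factor, in every dimension

A Weyl-Heisenberg fiducial is a unit vector `ψ ∈ ℂ^d` with `|⟨ψ|D_{a,b}|ψ⟩|² = 1/(d+1)` for all displacement
operators `D_{a,b} = X^a Z^b`, `(a,b) ≠ (0,0)`. Whether it exists for all `d` is the question. We show that in EVERY
dimension `d ≥ 2` there is a unit vector `ψ` with `|⟨ψ|D_{a,b}|ψ⟩|² ≤ C/(d+1)` for all `(a,b) ≠ (0,0)`, where `C` is an
absolute constant (the average of the left sides is `1/(d+1)` for every unit vector, so this is optimal up to the constant;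
a random vector only gives `C log d / d`, and the cubic phases of Alltop need a prime dimension). The same vectors have
stabilizer Rényi entropies `M_α` which are within `O(1)` of the SIC value for `α = 2`, and within `O(d^(2-α))` of it for
every `α ≥ 3`: no dimension is exceptional for these entropies.

Construction: take a prime `p` with `2d < p ≤ 4d`, the cubic phase `e(n³/p)` on the integers, the window
`w(n) = sin (π n / 2d)` on `[0, 2d]` (so that the squares of the translates of `w` by multiples of `d` add up to one) and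
periodise: `ψ(n) = w(n) e(n³/p) + w(n+d) e((n+d)³/p)`. The overlaps are sums of at most four quadratic Gauss sums modulo
`p` with Lipschitz weights. Such a sum is `O(√d)` without logarithms, since the discrete Fourier transform modulo `p` of
the weight has a bounded `ℓ¹` norm (Cauchy-Schwarz and Parseval for the weight and its difference).
-/

set_option autoImplicit false

namespace Pool.Agent.Results.MP_1c78a5_mp.ApproximateFiducials

open Finset

/-- The shift operator `X|j⟩ = |j+1⟩` on `ℂ^d` (a vector `v` is the family of its coordinates `v j`, `j ∈ ℤ/d`). -/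
def X {d : ℕ} (v : ZMod d → ℂ) : ZMod d → ℂ := fun j => v (j - 1)

/-- The clock operator `Z|j⟩ = ω^j |j⟩`, `ω = exp (2πi/d)`. -/
noncomputable def Z {d : ℕ} (v : ZMod d → ℂ) : ZMod d → ℂ :=
  fun j => Complex.exp (2 * Real.pi * Complex.I / d) ^ j.val * v j

/-- The displacement operator `D_{a,b} = X^a Z^b`. -/
noncomputable def D {d : ℕ} (a b : ZMod d) (v : ZMod d → ℂ) : ZMod d → ℂ := X^[a.val] (Z^[b.val] v)

/-- `⟨ψ|D_{a,b}|ψ⟩` -/
noncomputable def amp {d : ℕ} [NeZero d] (ψ : ZMod d → ℂ) (a b : ZMod d) : ℂ :=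
  ∑ j : ZMod d, (starRingEnd ℂ) (ψ j) * D a b ψ j

/-- The stabilizer Rényi entropy `M_α(ψ) = 1/(1-α) log ∑_{(a,b)} (1/d) |⟨ψ|D_{a,b}|ψ⟩|^(2α)`. -/
noncomputable def M {d : ℕ} [NeZero d] (α : ℕ) (ψ : ZMod d → ℂ) : ℝ :=
  1 / (1 - (α : ℝ)) * Real.log (∑ a : ZMod d, ∑ b : ZMod d, 1 / (d : ℝ) * ‖amp ψ a b‖ ^ (2 * α))

/-- The value of `M_α` at the Weyl-Heisenberg fiducials, `1/(1-α) log ((1 + (d-1)(d+1)^(1-α)) / d)`, which is an upper
bound for `M_α` at all unit vectors. -/
noncomputable def Msic (α d : ℕ) : ℝ :=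
  1 / (1 - (α : ℝ)) * Real.log ((1 + ((d : ℝ) - 1) * ((d : ℝ) + 1) ^ (1 - (α : ℤ))) / d)

open Classical in
/-- The displacements `(a,b) ≠ (0,0)` whose overlap is at least of the order of magnitude of a fiducial:
`|⟨ψ|D_{a,b}|ψ⟩|² ≥ 1/(2(d+1))`. -/
noncomputable def typical {d : ℕ} [NeZero d] (ψ : ZMod d → ℂ) : Finset (ZMod d × ZMod d) :=
  univ.filter fun x => x ≠ 0 ∧ 1 / (2 * ((d : ℝ) + 1)) ≤ ‖amp ψ x.1 x.2‖ ^ 2

/-- **Weyl-Heisenberg covariant SICs up to a constant factor, in every dimension.** -/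
theorem result : ∃ C : ℝ, 0 < C ∧ ∀ (d : ℕ) [NeZero d], 2 ≤ d →
    ∃ ψ : ZMod d → ℂ, ∑ j : ZMod d, ‖ψ j‖ ^ 2 = 1 ∧
      (∀ a b : ZMod d, ¬ (a = 0 ∧ b = 0) → ‖amp ψ a b‖ ^ 2 ≤ C / (d + 1)) ∧
      ((d : ℝ) ^ 2 - 1) / (2 * C) ≤ (typical ψ).card ∧
      ∀ α : ℕ, 2 ≤ α → Msic α d - M α ψ ≤ C ^ α * (d : ℝ) ^ (2 - (α : ℤ)) / ((α : ℝ) - 1) := by
  refine ⟨18816, by norm_num, fun d _ hd => ?_⟩
  obtain ⟨ψ, hψ, hov⟩ := Pool.Agent.X25.SIC.exists_fiducial d hd
  have hd2 : (2 : ℝ) ≤ d := by exact_mod_cast hd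
  have hd0 : (0 : ℝ) < d := by linarith
  have hsq : 0 < Real.sqrt d := Real.sqrt_pos.2 hd0
  have hamp : ∀ a b : ZMod d, ‖amp ψ a b‖ = Pool.Agent.X25.SIC.ov ψ a b := fun a b => rfl
  have hsup : ∀ a b : ZMod d, ¬ (a = 0 ∧ b = 0) → ‖amp ψ a b‖ ^ 2 ≤ 18816 / (d + 1) := by
    intro a b hab
    have h1 := hov a b hab
    rw [← hamp] at h1
    have h2 := pow_le_pow_left₀ (norm_nonneg _) h1 2
    rw [div_pow, Real.sq_sqrt hd0.le] at h2
    refine h2.trans ?_
    rw [div_le_div_iff₀ hd0 (by linarith)]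
    nlinarith
  have hmoyal : ∑ x : ZMod d × ZMod d, ‖amp ψ x.1 x.2‖ ^ 2 = d := by
    have h := Pool.Agent.X25.SIC.moyal ψ hψ
    rw [Fintype.sum_prod_type]
    exact h
  have h00 : ‖amp ψ 0 0‖ = 1 := by
    have h := Pool.Agent.X25.SIC.braket_self ψ
    have h2 : amp ψ 0 0 = Pool.Agent.X25.SIC.braket ψ (Pool.Agent.X25.SIC.disp 0 0 ψ) := rfl
    rw [h2, h, hψ]; simp
  refine ⟨ψ, hψ, hsup, ?_, fun α hα => ?_⟩
  · classical
    have h1 : ∑ x ∈ (univ : Finset (ZMod d × ZMod d)).erase 0, ‖amp ψ x.1 x.2‖ ^ 2 = d - 1 := by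
      have h2 := Finset.add_sum_erase (univ : Finset (ZMod d × ZMod d))
        (fun x => ‖amp ψ x.1 x.2‖ ^ 2) (mem_univ 0)
      simp only [Prod.fst_zero, Prod.snd_zero] at h2
      rw [hmoyal, h00] at h2
      linarith
    have h3 : ∑ x ∈ (univ : Finset (ZMod d × ZMod d)).erase 0, ‖amp ψ x.1 x.2‖ ^ 2 ≤
        ∑ x ∈ (univ : Finset (ZMod d × ZMod d)).erase 0,
          ((if x ∈ typical ψ then 18816 / ((d : ℝ) + 1) else 0) + 1 / (2 * ((d : ℝ) + 1))) := by
      refine Finset.sum_le_sum fun x hx => ?_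
      have hx0 : x ≠ 0 := (Finset.mem_erase.1 hx).1
      have hx1 : ¬ (x.1 = 0 ∧ x.2 = 0) := fun h => hx0 (Prod.ext h.1 h.2)
      by_cases hT : x ∈ typical ψ
      · rw [if_pos hT]
        have h4 := hsup x.1 x.2 hx1
        have : (0 : ℝ) < 1 / (2 * ((d : ℝ) + 1)) := by positivity
        linarith
      · rw [if_neg hT, zero_add]
        unfold typical at hT
        rw [Finset.mem_filter, not_and, not_and] at hT
        exact (not_le.1 (hT (mem_univ _) hx0)).le
    have h5 : ∑ x ∈ (univ : Finset (ZMod d × ZMod d)).erase 0,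
        ((if x ∈ typical ψ then 18816 / ((d : ℝ) + 1) else 0) + 1 / (2 * ((d : ℝ) + 1))) ≤
        (typical ψ).card * (18816 / ((d : ℝ) + 1)) + ((d : ℝ) ^ 2 - 1) * (1 / (2 * ((d : ℝ) + 1))) := by
      rw [Finset.sum_add_distrib, Finset.sum_const, Finset.card_erase_of_mem (mem_univ _),
        Finset.card_univ, Fintype.card_prod, ZMod.card, nsmul_eq_mul]
      refine add_le_add ?_ (le_of_eq ?_)
      · rw [← Finset.sum_filter, Finset.sum_const, nsmul_eq_mul]
        refine mul_le_mul_of_nonneg_right ?_ (by positivity)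
        exact_mod_cast Finset.card_le_card fun x hx => (Finset.mem_filter.1 hx).2
      · congr 1
        rw [Nat.cast_sub (by nlinarith)]
        push_cast; ring
    rw [h1] at h3
    have h6 := h3.trans h5
    have h7 : ((d : ℝ) ^ 2 - 1) * (1 / (2 * ((d : ℝ) + 1))) = (d - 1) / 2 := by
      field_simp; ring
    rw [h7] at h6
    have h8 : ((d : ℝ) - 1) / 2 ≤ (typical ψ).card * (18816 / ((d : ℝ) + 1)) := by linarith
    rw [div_le_iff₀ (by norm_num)]
    have h9 : (typical ψ).card * (18816 / ((d : ℝ) + 1)) * ((d : ℝ) + 1) =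
        (typical ψ).card * 18816 := by field_simp
    nlinarith
  · set S : ℝ := ∑ a : ZMod d, ∑ b : ZMod d, 1 / (d : ℝ) * ‖amp ψ a b‖ ^ (2 * α) with hS
    set y : ℝ := (18816 : ℝ) ^ α * (d : ℝ) ^ (2 - (α : ℤ)) with hy
    have hα1 : (0 : ℝ) < (α : ℝ) - 1 := by
      have : (2 : ℝ) ≤ α := by exact_mod_cast hα
      linarith
    have hy0 : 0 ≤ y := by positivity
    have hSle : S ≤ 1 / d * (1 + y) := by
      have h1 : S = ∑ x : ZMod d × ZMod d, 1 / (d : ℝ) * ‖amp ψ x.1 x.2‖ ^ (2 * α) := by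
        rw [Fintype.sum_prod_type]
      rw [h1, ← Finset.mul_sum]
      refine mul_le_mul_of_nonneg_left ?_ (by positivity)
      rw [← Finset.add_sum_erase _ _ (mem_univ (0 : ZMod d × ZMod d))]
      simp only [Prod.fst_zero, Prod.snd_zero, h00, one_pow]
      refine add_le_add le_rfl ?_
      calc ∑ x ∈ (univ : Finset (ZMod d × ZMod d)).erase 0, ‖amp ψ x.1 x.2‖ ^ (2 * α)
          ≤ ∑ _x ∈ (univ : Finset (ZMod d × ZMod d)).erase 0, (18816 / (d : ℝ)) ^ α := by
            refine Finset.sum_le_sum fun x hx => ?_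
            have hx0 : x ≠ 0 := (Finset.mem_erase.1 hx).1
            have hx1 : ¬ (x.1 = 0 ∧ x.2 = 0) := fun h => hx0 (Prod.ext h.1 h.2)
            rw [pow_mul]
            refine pow_le_pow_left₀ (by positivity) ((hsup x.1 x.2 hx1).trans ?_) α
            exact div_le_div_of_nonneg_left (by norm_num) hd0 (by linarith)
        _ ≤ (d : ℝ) ^ 2 * (18816 / (d : ℝ)) ^ α := by
            rw [Finset.sum_const, nsmul_eq_mul]
            refine mul_le_mul_of_nonneg_right ?_ (by positivity)
            have h2 : (((univ : Finset (ZMod d × ZMod d)).erase 0).card : ℝ) ≤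
                ((univ : Finset (ZMod d × ZMod d)).card : ℝ) := by
              exact_mod_cast Finset.card_le_card (Finset.erase_subset _ _)
            rw [Finset.card_univ, Fintype.card_prod, ZMod.card] at h2
            push_cast at h2
            nlinarith
        _ = y := by
            rw [hy, div_pow, zpow_sub₀ hd0.ne']
            norm_cast
            push_cast
            field_simp
    have hS0 : 0 < S := by
      have h1 : S = ∑ x : ZMod d × ZMod d, 1 / (d : ℝ) * ‖amp ψ x.1 x.2‖ ^ (2 * α) := by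
        rw [Fintype.sum_prod_type]
      rw [h1]
      refine Finset.sum_pos' (fun x _ => by positivity) ⟨0, mem_univ _, ?_⟩
      simp only [Prod.fst_zero, Prod.snd_zero, h00, one_pow]
      positivity
    have h1 : Real.log S ≤ - Real.log d + y := by
      calc Real.log S ≤ Real.log (1 / d * (1 + y)) := Real.log_le_log hS0 hSle
        _ = - Real.log d + Real.log (1 + y) := by
            rw [Real.log_mul (by positivity) (by positivity), one_div, Real.log_inv]
        _ ≤ - Real.log d + y := by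
            have := Real.log_le_sub_one_of_pos (show (0 : ℝ) < 1 + y by linarith)
            linarith
    set z : ℝ := ((d : ℝ) - 1) * ((d : ℝ) + 1) ^ (1 - (α : ℤ)) with hz
    have hz0 : 0 ≤ z := mul_nonneg (by linarith) (by positivity)
    have h2 : - Real.log d ≤ Real.log ((1 + z) / d) := by
      rw [Real.log_div (by positivity) (by positivity)]
      have := Real.log_nonneg (show (1 : ℝ) ≤ 1 + z by linarith)
      linarith
    have h3 : Msic α d - M α ψ = (Real.log S - Real.log ((1 + z) / d)) / ((α : ℝ) - 1) := by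
      unfold Msic M
      rw [← hS, ← hz]
      have : 1 - (α : ℝ) ≠ 0 := by linarith
      field_simp
      ring
    rw [h3]
    exact div_le_div_of_nonneg_right (by linarith) hα1.le

end Pool.Agent.Results.MP_1c78a5_mp.ApproximateFiducials
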