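import Pool.Agent.X103.Sic

/-!
# Clifford symmetries of Weyl–Heisenberg SIC fiducial vectors in odd dimension
-/

set_option autoImplicit false

open Matrix

namespace Pool.Agent.Results.MP_1c78a5_mp.EvenSymmetries

/-- the shift operator `X |j⟩ = |j + 1⟩` -/
def X (d : ℕ) [NeZero d] : Matrix (ZMod d) (ZMod d) ℂ := fun i j => if i = j + 1 then 1 else 0

/-- the clock operator `Z |j⟩ = exp (2 π i / d) ^ j |j⟩` -/
noncomputable def Z (d : ℕ) [NeZero d] : Matrix (ZMod d) (ZMod d) ℂ :=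
  Matrix.diagonal fun j => Complex.exp (2 * Real.pi * Complex.I / d) ^ j.val

/-- the displacement operators `D_{a,b} = X ^ a * Z ^ b` -/
noncomputable def D (d : ℕ) [NeZero d] (a b : ZMod d) : Matrix (ZMod d) (ZMod d) ℂ :=
  X d ^ a.val * Z d ^ b.val

/-- Weyl–Heisenberg covariant SIC fiducial vectors -/
def IsFiducial (d : ℕ) [NeZero d] (ψ : ZMod d → ℂ) : Prop :=
  ∑ j, ‖ψ j‖ ^ 2 = 1 ∧
    ∀ a b : ZMod d, (a, b) ≠ (0, 0) → ‖star ψ ⬝ᵥ (D d a b *ᵥ ψ)‖ ^ 2 = 1 / ((d : ℝ) + 1)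

/-- Clifford operators: the invertible matrices which normalise the Weyl–Heisenberg group up to
scalars. -/
def IsClifford (d : ℕ) [NeZero d] (U : Matrix (ZMod d) (ZMod d) ℂ) : Prop :=
  IsUnit U ∧ ∀ a b : ZMod d, ∃ (a' b' : ZMod d) (c : ℂ), U * D d a b = c • (D d a' b' * U)

variable {d : ℕ} [NeZero d]

lemma X_pow (n : ℕ) : X d ^ n = X103.Sic.T ((n : ℕ) : ZMod d) 0 := by
  induction n with
  | zero => rw [pow_zero, Nat.cast_zero, X103.Sic.T_zero]
  | succ n ih =>
    have h1 : X d = X103.Sic.T 1 0 := by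
      ext i j
      simp only [X, X103.Sic.T, zero_mul, AddChar.map_zero_eq_one]
    rw [pow_succ, ih, h1, X103.Sic.T_mul, zero_mul, AddChar.map_zero_eq_one, one_smul, add_zero,
      Nat.cast_succ]

lemma Z_pow (n : ℕ) : Z d ^ n = X103.Sic.T 0 ((n : ℕ) : ZMod d) := by
  induction n with
  | zero => rw [pow_zero, Nat.cast_zero, X103.Sic.T_zero]
  | succ n ih =>
    have h1 : Z d = X103.Sic.T 0 1 := by
      ext i j
      simp only [Z, X103.Sic.T, add_zero, one_mul, Matrix.diagonal_apply]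
      by_cases h : i = j
      · rw [if_pos h, if_pos h, h, ← Complex.exp_nat_mul]
        have h2 := ZMod.stdAddChar_coe (N := d) (j.val : ℤ)
        rw [Int.cast_natCast, ZMod.natCast_zmod_val] at h2
        rw [X103.Sic.ch, h2]
        congr 1
        push_cast
        ring
      · rw [if_neg h, if_neg h]
    rw [pow_succ, ih, h1, X103.Sic.T_mul, mul_zero, AddChar.map_zero_eq_one, one_smul, add_zero,
      Nat.cast_succ]

lemma D_eq (a b : ZMod d) : D d a b = X103.Sic.T a b := by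
  rw [D, X_pow, Z_pow, X103.Sic.T_mul, ZMod.natCast_zmod_val, ZMod.natCast_zmod_val, zero_mul,
    AddChar.map_zero_eq_one, one_smul, add_zero, zero_add]

/-- Let `d` be odd and let `ψ` be a Weyl–Heisenberg covariant SIC fiducial vector in dimension
`d`.  Suppose that `ψ` is an eigenvector of a Clifford operator `U` whose order modulo scalars is
even: `U ^ (2 m)` is a scalar and `U ^ m` is not.  Then `d + 1` is a perfect square.  In
particular, if `d` is prime then `d = 3`. -/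
theorem result (d : ℕ) [NeZero d] (hd : Odd d) (ψ : ZMod d → ℂ) (hψ : IsFiducial d ψ)
    (U : Matrix (ZMod d) (ZMod d) ℂ) (hU : IsClifford d U) (hUψ : ∃ c : ℂ, U *ᵥ ψ = c • ψ)
    (m : ℕ) (h2 : ∃ s : ℂ, U ^ (2 * m) = s • (1 : Matrix (ZMod d) (ZMod d) ℂ))
    (h1 : ¬ ∃ s : ℂ, U ^ m = s • (1 : Matrix (ZMod d) (ZMod d) ℂ)) :
    IsSquare (d + 1) ∧ (d.Prime → d = 3) := by
  have hsq : IsSquare (d + 1) := by
    obtain ⟨hU1, hU2⟩ := hU
    have hC : ∀ p, ∃ q, X103.Sic.Cl U p q := by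
      rintro ⟨a, b⟩
      obtain ⟨a', b', c, h⟩ := hU2 a b
      refine ⟨(a', b'), c, ?_, ?_⟩
      · rintro rfl
        rw [zero_smul, D_eq] at h
        have h3 : X103.Sic.T a b = 0 := by
          apply hU1.mul_left_cancel
          rw [h, Matrix.mul_zero]
        have h4 := congrFun (congrFun h3 a) 0
        simp [X103.Sic.T] at h4
      · rw [D_eq, D_eq] at h
        exact h
    obtain ⟨s, hs⟩ := h2
    obtain ⟨c, hc⟩ := hUψ
    have hcm : ∀ n : ℕ, U ^ n *ᵥ ψ = c ^ n • ψ := by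
      intro n
      induction n with
      | zero => simp
      | succ n ih =>
        rw [pow_succ, ← Matrix.mulVec_mulVec, hc, Matrix.mulVec_smul, ih, smul_smul, pow_succ,
          mul_comm]
    refine X103.Sic.main (d := d) hd (ψ := ψ) ?_ ?_ (V := U ^ m) (hU1.pow m)
      (X103.Sic.pow_cl hC m) (s := s) ?_ (hcm m) h1
    · have h3 : X103.Sic.F ψ 0 0 = ((∑ j, ‖ψ j‖ ^ 2 : ℝ) : ℂ) := by
        simp only [X103.Sic.F, add_zero, zero_mul, AddChar.map_zero_eq_one, one_mul]
        push_cast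
        refine Finset.sum_congr rfl fun j _ => ?_
        exact Complex.conj_mul' (ψ j)
      rw [h3, hψ.1, Complex.ofReal_one]
    · intro k l hkl
      rw [← X103.Sic.F_eq, ← D_eq]
      exact hψ.2 k l hkl
    · rw [← pow_add, ← two_mul, hs]
  refine ⟨hsq, fun hp => ?_⟩
  obtain ⟨k, hk⟩ := hsq
  have hk2 : 2 ≤ k := by
    by_contra hcon
    have h3 := hp.two_le
    interval_cases k <;> omega
  obtain ⟨t, rfl⟩ : ∃ t, k = t + 1 := ⟨k - 1, by omega⟩
  have h3 : d = t * (t + 2) := by nlinarith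
  have h4 : t = 1 := by
    have h5 : t ∣ d := ⟨t + 2, h3⟩
    rcases (Nat.dvd_prime hp).1 h5 with h6 | h6
    · exact h6
    · exfalso
      have h7 := hp.pos
      nlinarith
  rw [h3, h4]

end Pool.Agent.Results.MP_1c78a5_mp.EvenSymmetries
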