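import Pool.Agent.X181.SIC.Fin

/-!
# MP_1c78a5_mp: symmetries `ψ (u j) = ζ ψ (j)` of Weyl-Heisenberg SIC states

Let `ψ` be a WH SIC state in dimension `D` (any `D`) with `ψ (u j) = ζ ψ (j)` for all `j`, where
`u ≠ 1` is a unit of `Z/D`. Then `u` has at most `√(D+1) + 1` fixed points. If `u² = 1` (for
instance `u = -1`: parity), then `D + 1 = m²` is a perfect square, `ζ = ±1`, there are at most
`m + ζ` fixed points, and the overlaps with the displacements in `((u-1) Z/D)²` are, up to explicit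
phases, `±1/m` with explicit numbers of both signs; in the extreme cases all of them are `ζ/m`.
-/

set_option autoImplicit false

namespace Pool.Agent.Results.MP_1c78a5_mp.InvolutiveSymmetries

open Finset Complex Pool.Agent.X181.SIC

/-- **Multiplier symmetries of WH SIC states.** -/
theorem result {D : ℕ} [NeZero D] (ψ : ZMod D → ℂ) (h : Fid ψ) (u : ZMod D) (hu : IsUnit u)
    (hu1 : u ≠ 1) (ζ : ℂ) (hs : ∀ j, ψ (u * j) = ζ * ψ j) :
    (kap u : ℝ) ≤ √(D + 1) + 1 ∧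
    (u * u = 1 → ∃ m : ℕ, m ^ 2 = D + 1 ∧
      (ζ = 1 ∧ kap u ≤ m + 1 ∨ ζ = -1 ∧ kap u + 1 ≤ m) ∧
      (∀ p ∈ NP u, RR ψ u p.1 p.2 = 1 / m ∨ RR ψ u p.1 p.2 = -1 / m) ∧
      ∑ p ∈ NP u, RR ψ u p.1 p.2 = kap u * (ζ * D - kap u) ∧
      (ζ = 1 → kap u = m + 1 → ∀ p ∈ NP u, RR ψ u p.1 p.2 = 1 / m) ∧
      (ζ = -1 → kap u + 1 = m → ∀ p ∈ NP u, RR ψ u p.1 p.2 = -1 / m)) :=
  ⟨few_fixed h hu hu1 hs, fun hu2 => main h hu2 hu1 hs⟩

end Pool.Agent.Results.MP_1c78a5_mp.InvolutiveSymmetries
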