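import Pool.Agent.X181.SIC.Anti

/-!
# MP_1c78a5_mp: antiunitary symmetries and half-period overlaps in even dimensions

Let `D = 2^k o`, `k ≥ 1`, `o` odd, and let `ψ` be a WH SIC state in dimension `D`.

* `ψ` has no symmetry `conj ψ(j) = ζ ω^{cj} ψ(u j + v)` with `u² = 1` and `u ≡ ±1 (mod 2^k)`; in
  particular no WH SIC state in an even dimension is real up to a phase.
* With `n = D/2`, the sequences `r_j = Re (conj ψ(j+n) ψ(j))` (which has period `n`) and
  `t_j = Im (conj ψ(j+n) ψ(j))` (with `t_{j+n} = -t_j`) are uncorrelated, `r` has perfect periodic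
  and `t` perfect odd-periodic autocorrelation, with the same energy.
-/

set_option autoImplicit false

namespace Pool.Agent.Results.MP_1c78a5_mp.RealFiducialsEven

open Finset Complex Pool.Agent.X181.SIC

/-- `conj ψ(j + n) ψ(j)` -/
noncomputable def prod {D : ℕ} (ψ : ZMod D → ℂ) (n j : ZMod D) : ℂ := star (ψ (j + n)) * ψ j

/-- **WH SIC states in even dimensions.** -/
theorem result {D : ℕ} [NeZero D] (k o : ℕ) (hk : 1 ≤ k) (ho : Odd o) (hD : D = 2 ^ k * o)
    (ψ : ZMod D → ℂ) (h : Fid ψ) :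
    (∀ u : ZMod D, u * u = 1 → ((2 : ZMod D) ^ k ∣ u - 1 ∨ (2 : ZMod D) ^ k ∣ u + 1) →
      ∀ (ζ : ℂ) (c v : ZMod D),
        ¬ ∀ j, star (ψ j) = ζ * (ZMod.stdAddChar (c * j) * ψ (u * j + v))) ∧
    (∀ n : ZMod D, n = ((D / 2 : ℕ) : ZMod D) →
      (∀ j, (prod ψ n (j + n)).re = (prod ψ n j).re ∧ (prod ψ n (j + n)).im = -(prod ψ n j).im) ∧
      ∀ l : ZMod D,
        (∑ j, (prod ψ n j).re * (prod ψ n (j + l)).re =
          ((if l = 0 then 1 else 0) + (if l = n then 1 else 0)) / (2 * ((D : ℝ) + 1))) ∧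
        (∑ j, (prod ψ n j).im * (prod ψ n (j + l)).im =
          ((if l = 0 then 1 else 0) - (if l = n then 1 else 0)) / (2 * ((D : ℝ) + 1))) ∧
        (∑ j, (prod ψ n j).re * (prod ψ n (j + l)).im = 0)) := by
  refine ⟨fun u hu hu2 ζ c v => ?_, fun n hn => ?_⟩
  · obtain ⟨a, b, ha, hb, hab⟩ := exists_ab hk ho hD hu hu2
    exact anti_none h hu ha hb hab ζ c v
  · have hD0 : 0 < D := Nat.pos_of_ne_zero (NeZero.ne D)
    have h2 : D = D / 2 + D / 2 := by
      have : 2 ∣ D := ⟨2 ^ (k - 1) * o, by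
        rw [hD, ← mul_assoc, ← pow_succ']; congr 2; omega⟩
      omega
    have hnn : n + n = 0 := by
      rw [hn, ← Nat.cast_add, ← h2]; exact ZMod.natCast_self D
    have hn0 : n ≠ 0 := by
      rw [hn, Ne, ZMod.natCast_eq_zero_iff]
      intro h1
      have := Nat.le_of_dvd (by omega) h1
      omega
    refine ⟨fun j => ?_, fun l => half_dim h hn0 hnn l⟩
    have h3 : prod ψ n (j + n) = star (prod ψ n j) := by
      unfold prod
      rw [star_mul', star_star, show j + n + n = j by linear_combination hnn, mul_comm]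
    rw [h3]
    exact ⟨rfl, rfl⟩

end Pool.Agent.Results.MP_1c78a5_mp.RealFiducialsEven
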